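import Pool.Agent.H15.OL.Opn
import Pool.Agent.H85.LN.EarW
import Pool.Agent.H85.HW.GUnif

/-!
# Block OL: openness with fast oscillations, Landau equation

`g` is any classical solution whose initial value is the average `avX h` of a two-scale profile `h(x, y, v)` over the fast variable,
and which comes once close to a Maxwellian. Every solution with data near `h(x, N x, v)`, `N` large, obeys the hydrodynamic bounds,
is close to `g` for `τ ≤ t ≤ t₁` and close to the Maxwellian for `t ≥ t₁`.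
-/

set_option autoImplicit false

open MeasureTheory Set Filter Topology Pool.Agent.H25.Kin Pool.Agent.H48.PR Pool.Agent.H48.NE Pool.Agent.H48.LN
open Pool.Agent.H48.LV (LSol lsol_one lsol_shift)
open Pool.Agent.H37.LN (DC)
open Pool.Agent.H85.HW (Sch2 avX avX_pos g_unif)

namespace Pool.Agent.H15.OL

variable {d : ℕ} {γ : ℝ}

/-- **openness with fast oscillations** -/
theorem open_LW (hd : 2 ≤ d) (h1 : -2 < γ) (h2 : γ ≤ 0) {a k : ℝ} (ha : 0 < a) (hk : 0 < k) (u : Vec d)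
    {η : ℝ} (hη : 0 < η) : ∃ e > 0, ∀ (T₁ : ℝ) (g : ℝ → Vec d → Vec d → ℝ), IsLandauSol γ T₁ g →
      (∀ T₀ < T₁, ∀ N : ℕ, ∃ C, ∀ t ∈ Ioc 0 T₀, ∀ (x v : Vec d) (i j : Fin d),
        (1 + ‖v‖) ^ N * |pd i (pd j (g t x)) v| ≤ C) → ∀ t₁ ∈ Ico 0 T₁,
      (∀ x v, |g t₁ x v - mx a k u v| ≤ e * Wp (d + 3) v) →
      ∀ h : Vec d → Vec d → Vec d → ℝ, Sch2 h → (∀ x y v, 0 ≤ h x y v) →
      (∀ x y, 0 < ∫ v, h x y v) → g 0 = avX h → ∀ B : ℕ → ℝ, ∀ τ > 0,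
      ∃ ε > 0, ∃ n₀ : ℕ, ∃ m₁ > 0, ∃ (M₀ : ℝ) (U : ℕ → ℝ), ∀ n ≥ n₀, ∃ m₀ > 0,
      ∀ (T : ℝ) (f : ℝ → Vec d → Vec d → ℝ),
        IsLandauSol γ T f → (∀ (N : ℕ) (x v : Vec d), (1 + ‖v‖) ^ N * f 0 x v ≤ B N) →
        (∀ x v, |f 0 x v - h x ((n : ℝ) • x) v| ≤ ε) →
        ∀ t ∈ Ico 0 T, ∀ x, HydroBounds m₀ M₀ M₀ M₀ (f t x) ∧
          (∀ (N : ℕ) (v : Vec d), (1 + ‖v‖) ^ N * f t x v ≤ U N) ∧
          (τ ≤ t → m₁ ≤ ∫ v, f t x v) ∧
          (τ ≤ t → t ≤ t₁ → ∀ v, |f t x v - g t x v| ≤ η) ∧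
          (τ ≤ t → t₁ ≤ t → ∀ v, |f t x v - mx a k u v| ≤ η) := by
  obtain ⟨e₀, he₀, hop⟩ := open_L hd h1 h2 ha hk u (η := η / 4) (by positivity)
  refine ⟨min e₀ (η / 4), lt_min he₀ (by positivity), fun T₁ g hg hg2 t₁ ht₁ hgM h hh hn hv hg0 B τ hτ => ?_⟩
  have hg' : IsClassicalSol T₁ (fun t x => landauQ γ (g t x)) g := hg
  have hgpos : ∀ x, 0 < ∫ v, g 0 x v := by
    rw [hg0]
    exact avX_pos hh hn hv
  have hgM' : ∀ x v, |g t₁ x v - mx a k u v| ≤ e₀ * Wp (d + 3) v := fun x v =>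
    (hgM x v).trans (mul_le_mul_of_nonneg_right (min_le_left _ _) (Wp_pos _ v).le)
  have hgM1 : ∀ x v, |g t₁ x v - mx a k u v| ≤ η / 4 := fun x v => by
    refine (hgM x v).trans ?_
    calc min e₀ (η / 4) * Wp (d + 3) v ≤ η / 4 * 1 :=
          mul_le_mul (min_le_right _ _) (Wp_le_one _ v) (Wp_pos _ v).le (by positivity)
      _ = η / 4 := mul_one _
  obtain ⟨U₁, hU₁⟩ := Pool.Agent.H85.LN.earlyW hd h1 h2 h hh hn hv B
  obtain ⟨ε₂, hε₂, m₂, hm₂, M₂, U₂, hG2⟩ := hop T₁ g hg hg2 hgpos t₁ ht₁ hgM' U₁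
  obtain ⟨δ, hδ, hgu⟩ := g_unif hg' ht₁.2 (half_pos hη)
  obtain ⟨τ', hτ', ε', hε', n₀, hN⟩ := hU₁ ε₂ hε₂ (min τ δ) (lt_min hτ hδ)
  have hτ0 : 0 < τ' := hτ'.1
  have hττ : τ' ≤ τ := hτ'.2.trans (min_le_left _ _)
  have hτδ : τ' ≤ δ := hτ'.2.trans (min_le_right _ _)
  obtain ⟨M₀, hM₀⟩ := Pool.Agent.H48.PI.hydro_of_U d fun M => max (U₁ M) (U₂ M)
  refine ⟨ε', hε', n₀, m₂, hm₂, M₀, fun M => max (U₁ M) (U₂ M), fun n hNn => ?_⟩
  obtain ⟨m₀, hm₀, hf1⟩ := hN n hNn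
  refine ⟨min m₀ m₂, lt_min hm₀ hm₂, fun T f hf hfB hfε => ?_⟩
  have hf' : IsClassicalSol T (fun t x => landauQ γ (f t x)) f := hf
  obtain ⟨hearly, hclose⟩ := hf1 T f hf (fun N x v => hfB N x v) hfε
  have hlate : ∀ t ∈ Ico 0 T, τ' ≤ t → ∀ x, HydroBounds m₂ M₂ M₂ M₂ (f t x) ∧
      (∀ (M : ℕ) (v : Vec d), (1 + ‖v‖) ^ M * f t x v ≤ U₂ M) ∧
      (t - τ' ≤ t₁ → ∀ v, |f t x v - g (t - τ') x v| ≤ η / 4) ∧
      (t₁ ≤ t - τ' → ∀ v, |f t x v - mx a k u v| ≤ η / 4) := by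
    intro t ht htτ x
    have hτT : τ' < T := lt_of_le_of_lt htτ ht.2
    have hfs : IsLandauSol γ (T - τ') (fun t => f (τ' + t)) :=
      lsol_one.1 (lsol_shift (lsol_one.2 hf) hτ0.le)
    have hkey := hG2 (T - τ') (fun t => f (τ' + t)) hfs ?_ ?_ (t - τ')
      ⟨by linarith, by linarith [ht.2]⟩ x
    · have e : τ' + (t - τ') = t := by ring
      simp only [e] at hkey
      exact hkey
    · intro M y v
      show (1 + ‖v‖) ^ M * f (τ' + 0) y v ≤ U₁ M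
      rw [add_zero]
      exact (hearly τ' ⟨hτ0.le, hτT⟩ le_rfl).1 M y v
    · intro y v
      show |f (τ' + 0) y v - g 0 y v| ≤ ε₂
      rw [add_zero, hg0]
      exact hclose hτT y v
  have hUall : ∀ M : ℕ, ∀ t ∈ Ico 0 T, ∀ x v,
      (1 + ‖v‖) ^ M * f t x v ≤ max (U₁ M) (U₂ M) := by
    intro M t ht x v
    rcases le_total t τ' with hc | hc
    · exact ((hearly t ht hc).1 M x v).trans (le_max_left _ _)
    · exact ((hlate t ht hc x).2.1 M v).trans (le_max_right _ _)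
  intro t ht x
  obtain ⟨y1, y2, y3⟩ := hM₀ T _ f hf' hUall t ht x
  refine ⟨⟨?_, y1, y2, y3⟩, fun M v => hUall M t ht x v, fun hc => ?_, fun hc htT v => ?_,
    fun hc htT v => ?_⟩
  · rcases le_total t τ' with hc | hc
    · exact (min_le_left _ _).trans ((hearly t ht hc).2 x)
    · exact (min_le_right _ _).trans (hlate t ht hc x).1.1
  · exact (hlate t ht (hττ.trans hc) x).1.1
  · have htτ : τ' ≤ t := hττ.trans hc
    have h3 : |f t x v - g (t - τ') x v| ≤ η / 4 := (hlate t ht htτ x).2.2.1 (by linarith) v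
    have h4 : |g (t - τ') x v - g t x v| ≤ η / 2 := by
      refine hgu (t - τ') ⟨by linarith, by linarith⟩ t ⟨ht.1, htT⟩ ?_ x v
      rw [show t - τ' - t = -τ' by ring, abs_neg, abs_of_pos hτ0]
      exact hτδ
    rw [abs_le] at h3 h4 ⊢
    constructor <;> linarith [h3.1, h3.2, h4.1, h4.2]
  · have htτ : τ' ≤ t := hττ.trans hc
    rcases le_or_gt t₁ (t - τ') with hc2 | hc2
    · exact ((hlate t ht htτ x).2.2.2 hc2 v).trans (by linarith)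
    · have h3 : |f t x v - g (t - τ') x v| ≤ η / 4 := (hlate t ht htτ x).2.2.1 hc2.le v
      have h4 : |g (t - τ') x v - g t₁ x v| ≤ η / 2 := by
        refine hgu (t - τ') ⟨by linarith, hc2.le⟩ t₁ ⟨ht₁.1, le_rfl⟩ ?_ x v
        rw [abs_le]
        constructor <;> linarith
      have h5 := hgM1 x v
      rw [abs_le] at h3 h4 h5 ⊢
      constructor <;> linarith [h3.1, h3.2, h4.1, h4.2, h5.1, h5.2]

end Pool.Agent.H15.OL
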