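import Pool.Agent.H48.LN.OpA

/-!
# Block OL: stability of a given solution of the Landau equation, the operator at touching points

As OpA (H48/LN), with a function `G` with bounded second derivatives instead of a Maxwellian:
`landauQ F - landauQ G = ctr F r + ctr r G + cb F r(v) + cb r G(v)`, `r = F - G`.
-/

set_option autoImplicit false

open MeasureTheory Set Filter Topology Pool.Agent.H25.Kin Pool.Agent.H48.PR Pool.Agent.H48.NE Pool.Agent.H48.LN
open Pool.Agent.H15.AV (ab)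

namespace Pool.Agent.H15.OL

variable {d : ℕ} {γ : ℝ}

/-- functions with second derivatives bounded by `C Wp q` -/
def HW (q : ℕ) (C : ℝ) (G : Vec d → ℝ) : Prop := ∀ i j v, |pd i (pd j G) v| ≤ C * Wp q v

private lemma opB_step (p : ℕ) (v : Vec d) : (1 + nsq v) * Wp (p + 1) v = Wp p v := by
  have h : 0 < 1 + nsq v := by
    have := sq_nonneg' v
    linarith
  unfold Wp
  rw [pow_succ]
  field_simp

/-- the rest: `|ctr r G| + |cb r G|` -/
private lemma opB_rest (hd : 2 ≤ d) (h1 : -2 < γ) (h2 : γ ≤ 0) {p : ℕ} (hp : d + 2 ≤ p) :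
    ∃ K : ℝ, 0 ≤ K ∧ ∀ A : ℝ, 0 ≤ A → ∀ G : Vec d → ℝ, CW p A G → HW (p + 1) A G →
      ∀ Λ : ℝ, 0 ≤ Λ → ∀ g : Vec d → ℝ, CW p Λ g → ∀ v : Vec d,
      |ctr γ g G v| + |cb γ g v * G v| ≤ K * A * Λ * Wp p v := by
  obtain ⟨Ka, hKa0, hKa⟩ := ab_bd (d := d) (γ := γ) h1 h2 (q := p) hp
  obtain ⟨Kc, hKc0, hKc⟩ := cb_bd (d := d) (γ := γ) hd h1 h2 (q := p) hp
  refine ⟨(d : ℝ) * ((d : ℝ) * Ka) + Kc, by positivity, fun A hA G hG hG2 Λ hΛ g hg v => ?_⟩
  have hn : 0 ≤ nsq v := sq_nonneg' v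
  have hW1 : 0 < Wp p v := Wp_pos _ _
  have hW2 : 0 < Wp (p + 1) v := Wp_pos _ _
  have e1 : |ctr γ g G v| ≤ (d : ℝ) * ((d : ℝ) * Ka) * A * Λ * Wp p v := by
    unfold ctr
    refine (Finset.abs_sum_le_sum_abs _ _).trans ?_
    have : ∀ i ∈ (Finset.univ : Finset (Fin d)), |∑ j, ab γ g i j v * pd i (pd j G) v| ≤
        (d : ℝ) * (Ka * A * Λ * Wp p v) := by
      intro i _
      refine (Finset.abs_sum_le_sum_abs _ _).trans ?_
      have h3 : ∀ j ∈ (Finset.univ : Finset (Fin d)), |ab γ g i j v * pd i (pd j G) v| ≤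
          Ka * A * Λ * Wp p v := by
        intro j _
        rw [abs_mul]
        calc |ab γ g i j v| * |pd i (pd j G) v| ≤
            (Ka * Λ * (1 + nsq v)) * (A * Wp (p + 1) v) :=
              mul_le_mul (hKa Λ g hg i j v) (hG2 i j v) (abs_nonneg _) (by positivity)
          _ = Ka * A * Λ * ((1 + nsq v) * Wp (p + 1) v) := by ring
          _ = _ := by rw [opB_step]
      refine (Finset.sum_le_sum h3).trans (le_of_eq ?_)
      rw [Finset.sum_const, Finset.card_univ, Fintype.card_fin, nsmul_eq_mul]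
    refine (Finset.sum_le_sum this).trans (le_of_eq ?_)
    rw [Finset.sum_const, Finset.card_univ, Fintype.card_fin, nsmul_eq_mul]
    ring
  have e2 : |cb γ g v * G v| ≤ Kc * A * Λ * Wp p v := by
    rw [abs_mul]
    have h3 : (1 + nsq v) ^ (γ / 2) ≤ 1 :=
      Real.rpow_le_one_of_one_le_of_nonpos (by linarith) (by linarith)
    have h4 : |cb γ g v| ≤ Kc * Λ := by
      refine (hKc Λ g hg v).trans ?_
      have : 0 ≤ Kc * Λ := by positivity
      nlinarith
    calc |cb γ g v| * |G v| ≤ (Kc * Λ) * (A * Wp p v) :=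
        mul_le_mul h4 (hG.le v) (abs_nonneg _) (by positivity)
      _ = _ := by ring
  calc _ ≤ (d : ℝ) * ((d : ℝ) * Ka) * A * Λ * Wp p v + Kc * A * Λ * Wp p v := add_le_add e1 e2
    _ = _ := by ring

/-- the main part: `|ctr F (Wp p)| + |cb F|` for `F` of class `CW p A` -/
private lemma opB_wp (hd : 2 ≤ d) (h1 : -2 < γ) (h2 : γ ≤ 0) {p : ℕ} (hp : d + 2 ≤ p) :
    ∃ K : ℝ, 0 ≤ K ∧ ∀ A : ℝ, 0 ≤ A → ∀ F : Vec d → ℝ, CW p A F → ∀ v : Vec d,
      |ctr γ F (Wp p) v| ≤ K * A * Wp p v ∧ |cb γ F v| ≤ K * A := by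
  obtain ⟨Ka, hKa0, hKa⟩ := ab_bd (d := d) (γ := γ) h1 h2 (q := p) hp
  obtain ⟨Kc, hKc0, hKc⟩ := cb_bd (d := d) (γ := γ) hd h1 h2 (q := p) hp
  refine ⟨(d : ℝ) * ((d : ℝ) * (Ka * (8 * ((p : ℝ) + 1) ^ 2))) + Kc, by positivity,
    fun A hA F hF v => ?_⟩
  have hn : 0 ≤ nsq v := sq_nonneg' v
  have hn1 : 0 < 1 + nsq v := by linarith
  have hW1 : 0 < Wp p v := Wp_pos _ _
  constructor
  · have e1 : |ctr γ F (Wp p) v| ≤ (d : ℝ) * ((d : ℝ) * (Ka * (8 * ((p : ℝ) + 1) ^ 2))) * A * Wp p v := by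
      unfold ctr
      refine (Finset.abs_sum_le_sum_abs _ _).trans ?_
      have : ∀ i ∈ (Finset.univ : Finset (Fin d)), |∑ j, ab γ F i j v * pd i (pd j (Wp p)) v| ≤
          (d : ℝ) * (Ka * (8 * ((p : ℝ) + 1) ^ 2) * A * Wp p v) := by
        intro i _
        refine (Finset.abs_sum_le_sum_abs _ _).trans ?_
        have h3 : ∀ j ∈ (Finset.univ : Finset (Fin d)), |ab γ F i j v * pd i (pd j (Wp p)) v| ≤
            Ka * (8 * ((p : ℝ) + 1) ^ 2) * A * Wp p v := by
          intro j _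
          rw [abs_mul]
          calc |ab γ F i j v| * |pd i (pd j (Wp p)) v| ≤
              (Ka * A * (1 + nsq v)) * (8 * ((p : ℝ) + 1) ^ 2 * (Wp p v / (1 + nsq v))) :=
                mul_le_mul (hKa A F hF i j v) (wp_pd_le p i j v) (abs_nonneg _) (by positivity)
            _ = _ := by field_simp
        refine (Finset.sum_le_sum h3).trans (le_of_eq ?_)
        rw [Finset.sum_const, Finset.card_univ, Fintype.card_fin, nsmul_eq_mul]
      refine (Finset.sum_le_sum this).trans (le_of_eq ?_)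
      rw [Finset.sum_const, Finset.card_univ, Fintype.card_fin, nsmul_eq_mul]
      ring
    refine e1.trans ?_
    have : 0 ≤ Kc * A * Wp p v := by positivity
    linarith
  · have h3 : (1 + nsq v) ^ (γ / 2) ≤ 1 :=
      Real.rpow_le_one_of_one_le_of_nonpos (by linarith) (by linarith)
    have h4 : |cb γ F v| ≤ Kc * A := by
      refine (hKc A F hF v).trans ?_
      have : 0 ≤ Kc * A := by positivity
      nlinarith
    have : 0 ≤ (d : ℝ) * ((d : ℝ) * (Ka * (8 * ((p : ℝ) + 1) ^ 2))) * A := by positivity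
    linarith

/-- the difference of the operators at a touching point -/
theorem op_two (hd : 2 ≤ d) (h1 : -2 < γ) (h2 : γ ≤ 0) {p : ℕ} (hp : d + 2 ≤ p) {A : ℝ} (hA : 0 ≤ A) :
    ∃ K : ℝ, 0 ≤ K ∧ ∀ G : Vec d → ℝ, Nice G → CW p A G → HW (p + 1) A G →
      ∀ Λ : ℝ, 0 ≤ Λ → Λ ≤ 1 → ∀ F : Vec d → ℝ, Nice F →
      (∀ v, 0 ≤ F v) → (∀ v, |F v - G v| ≤ Λ * Wp p v) → ∀ v : Vec d,
      (F v - G v = Λ * Wp p v → landauQ γ F v - landauQ γ G v ≤ K * Λ * Wp p v) ∧
      (F v - G v = -(Λ * Wp p v) → -(K * Λ * Wp p v) ≤ landauQ γ F v - landauQ γ G v) := by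
  obtain ⟨K, hK0, hK⟩ := opB_rest (d := d) (γ := γ) hd h1 h2 hp
  obtain ⟨K', hK'0, hK'⟩ := opB_wp (d := d) (γ := γ) hd h1 h2 hp
  refine ⟨2 * (K' * (A + 1)) + K * A, by positivity, ?_⟩
  intro G hGN hGc hG2 Λ hΛ hΛ1 F hF hF0 hd' v
  have hFc : CW p (A + 1) F := by
    refine ⟨hF.cont, fun w => ?_⟩
    have h3 := hd' w
    have h4 := hGc.le w
    have h5 := Wp_pos p w
    have h6 : |F w| ≤ |F w - G w| + |G w| := by
      have := abs_add_le (F w - G w) (G w)
      rwa [sub_add_cancel] at this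
    nlinarith
  have hW : 0 < Wp p v := Wp_pos p v
  obtain ⟨hA1, hA2⟩ := hK' (A + 1) (by linarith) F hFc v
  have hr : CW p Λ (fun w => F w - G w) := ⟨hF.cont.sub hGN.cont, hd'⟩
  have hrest := hK A hA G hGc hG2 Λ hΛ _ hr v
  have hdif := dif_eq (γ := γ) hd h1 h2 hF hGN v
  have hsm : ContDiff ℝ 2 (fun w => F w - G w) := hF.smooth.sub hGN.smooth
  have hWs : ContDiff ℝ 2 (fun w : Vec d => Λ * Wp p w) := contDiff_const.mul (wp_smooth p)
  have hc1 : Λ * ctr γ F (Wp p) v ≤ Λ * (K' * (A + 1) * Wp p v) :=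
    mul_le_mul_of_nonneg_left ((le_abs_self _).trans hA1) hΛ
  have hc2 : |cb γ F v * (Λ * Wp p v)| ≤ K' * (A + 1) * (Λ * Wp p v) := by
    rw [abs_mul, abs_of_nonneg (by positivity : 0 ≤ Λ * Wp p v)]
    exact mul_le_mul_of_nonneg_right hA2 (by positivity)
  constructor
  · intro htou
    have hφ : ctr γ F (fun w => (F w - G w) - Λ * Wp p w) v ≤ 0 := by
      refine ctr_nonpos h1 h2 hF hF0 (hsm.sub hWs) fun w => ?_
      show F w - G w - Λ * Wp p w ≤ F v - G v - Λ * Wp p v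
      rw [htou]
      have := (abs_le.1 (hd' w)).2
      linarith
    rw [ctr_sub F hsm hWs v, ctr_smul F (wp_smooth p) Λ v] at hφ
    rw [hdif, htou]
    have h7 : ctr γ (fun w => F w - G w) G v + cb γ (fun w => F w - G w) v * G v ≤
        K * A * Λ * Wp p v := (add_le_add (le_abs_self _) (le_abs_self _)).trans hrest
    have h8 := (le_abs_self _).trans hc2
    have h9 : (2 * (K' * (A + 1)) + K * A) * Λ * Wp p v =
        Λ * (K' * (A + 1) * Wp p v) + K' * (A + 1) * (Λ * Wp p v) + K * A * Λ * Wp p v := by ring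
    rw [h9]
    linarith
  · intro htou
    have hφ : ctr γ F (fun w => (-1 : ℝ) * (F w - G w) - Λ * Wp p w) v ≤ 0 := by
      refine ctr_nonpos h1 h2 hF hF0 ((contDiff_const.mul hsm).sub hWs) fun w => ?_
      show (-1 : ℝ) * (F w - G w) - Λ * Wp p w ≤ (-1 : ℝ) * (F v - G v) - Λ * Wp p v
      rw [htou]
      have := (abs_le.1 (hd' w)).1
      linarith
    rw [ctr_sub F (contDiff_const.mul hsm) hWs v, ctr_smul F hsm (-1) v,
      ctr_smul F (wp_smooth p) Λ v] at hφ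
    rw [hdif, htou]
    have h7 : -(K * A * Λ * Wp p v) ≤
        ctr γ (fun w => F w - G w) G v + cb γ (fun w => F w - G w) v * G v := by
      have h9 := neg_abs_le (ctr γ (fun w => F w - G w) G v)
      have h10 := neg_abs_le (cb γ (fun w => F w - G w) v * G v)
      linarith
    have h8 := (le_abs_self _).trans hc2
    have h9 : (2 * (K' * (A + 1)) + K * A) * Λ * Wp p v =
        Λ * (K' * (A + 1) * Wp p v) + K' * (A + 1) * (Λ * Wp p v) + K * A * Λ * Wp p v := by ring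
    rw [h9, mul_neg]
    linarith

end Pool.Agent.H15.OL
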