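import Pool.Agent.H15.OL.StG
import Pool.Agent.H48.LN.NearB
import Pool.Agent.H15.KM.KMd
import Pool.Agent.H85.LN.Prp
import Pool.Agent.H48.LV.Scl
import Pool.Agent.H48.PI.HydU
import Pool.Agent.H93.CM.Final

/-!
# Block OL: the data with a solution that comes close to a Maxwellian form an open set, Landau equation

`g` is any classical solution on `[0,T₁)` without vacuum at `t = 0`, with velocity derivatives of order 2 that decay rapidly up to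
`t = 0`, and close to a Maxwellian at one time `t₁`. Every solution `f` with data near `g 0` stays close to `g` up to `t₁`
(`stG`) and then close to the Maxwellian (`near_L`, `near_eqL`).
-/

set_option autoImplicit false

open MeasureTheory Set Filter Topology Pool.Agent.H25.Kin Pool.Agent.H48.PR Pool.Agent.H48.NE Pool.Agent.H48.LN
open Pool.Agent.H48.LV (LSol lsol_one lsol_shift)
open Pool.Agent.H37.LN (DC)

namespace Pool.Agent.H15.OL

variable {d : ℕ} {γ : ℝ}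

/-- pointwise decay from a weighted bound -/
private lemma opn_le {q : ℕ} {v : Vec d} {a c : ℝ} (ha : 0 ≤ a)
    (h : (1 + ‖v‖) ^ (2 * q) * a ≤ c) : a ≤ ((d : ℝ) + 1) ^ q * |c| * Wp q v := by
  have hn := norm_nonneg v
  have h2 : 1 + nsq v ≤ ((d : ℝ) + 1) * (1 + ‖v‖) ^ 2 := by
    have h3 := sq_le v
    have h4 : (0 : ℝ) ≤ d := Nat.cast_nonneg _
    nlinarith [mul_nonneg h4 hn]
  have h5 : (1 + nsq v) ^ q ≤ ((d : ℝ) + 1) ^ q * (1 + ‖v‖) ^ (2 * q) := by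
    rw [pow_mul, ← mul_pow]
    exact pow_le_pow_left₀ (by have := sq_nonneg' v; linarith) h2 q
  have h6 : 0 < (1 + nsq v) ^ q := by
    have := sq_nonneg' v
    positivity
  rw [Wp, ← div_eq_mul_inv, le_div_iff₀ h6]
  calc a * (1 + nsq v) ^ q ≤ a * (((d : ℝ) + 1) ^ q * (1 + ‖v‖) ^ (2 * q)) :=
        mul_le_mul_of_nonneg_left h5 ha
    _ = ((d : ℝ) + 1) ^ q * ((1 + ‖v‖) ^ (2 * q) * a) := by ring
    _ ≤ ((d : ℝ) + 1) ^ q * |c| := by
        gcongr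
        exact h.trans (le_abs_self c)

private lemma opn_Wint {q : ℕ} (hq : d + 1 ≤ 2 * q) : Integrable (Wp q : Vec d → ℝ) := by
  refine Integrable.mono' ((integrable_wt (d := d)).const_mul ((2 : ℝ) ^ q))
    (Wp_cont q).aestronglyMeasurable (Eventually.of_forall fun v => ?_)
  have hn := norm_nonneg v
  have h1 : (1 + ‖v‖) ^ 2 ≤ 2 * (1 + nsq v) := by
    have := norm_sq_le_sq v
    nlinarith [sq_nonneg (1 - ‖v‖)]
  have h2 : (1 + ‖v‖) ^ (d + 1) ≤ 2 ^ q * (1 + nsq v) ^ q := by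
    calc (1 + ‖v‖) ^ (d + 1) ≤ (1 + ‖v‖) ^ (2 * q) := pow_le_pow_right₀ (by linarith) hq
      _ = ((1 + ‖v‖) ^ 2) ^ q := pow_mul _ _ _
      _ ≤ (2 * (1 + nsq v)) ^ q := pow_le_pow_left₀ (by positivity) h1 q
      _ = 2 ^ q * (1 + nsq v) ^ q := mul_pow _ _ _
  have h3 : 0 < (1 + nsq v) ^ q := by
    have := sq_nonneg' v
    positivity
  rw [Real.norm_of_nonneg (Wp_pos q v).le, Wp, wt, ← div_eq_mul_inv, ← one_div,
    div_le_div_iff₀ h3 (by positivity), one_mul]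
  exact h2

private lemma opn_int {T : ℝ} {Q f : ℝ → Vec d → Vec d → ℝ} (hf : IsClassicalSol T Q f) {t : ℝ}
    (ht : t ∈ Ico 0 T) (x : Vec d) : Integrable (f t x) := by
  obtain ⟨C, hC⟩ := hf.decay t ht.2 (2 * (d + 1))
  have hc : Continuous (f t x) := by
    have h1 : Continuous fun v : Vec d => ((t, x, v) : ℝ × Vec d × Vec d) := by fun_prop
    exact hf.isCont.comp_continuous h1 fun v => ⟨ht, mem_univ _⟩
  refine Integrable.mono' ((opn_Wint (d := d) (q := d + 1) (by omega)).const_mul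
    (((d : ℝ) + 1) ^ (d + 1) * |C|)) hc.aestronglyMeasurable
    (Eventually.of_forall fun v => ?_)
  have h0 := hf.nonneg t ht x v
  rw [Real.norm_of_nonneg h0]
  exact opn_le h0 (hC t ⟨ht.1, le_rfl⟩ x v)

/-- closeness in the sup norm and decay give closeness with a weight -/
theorem sup_to_wp (p : ℕ) (A : ℝ) {ε' : ℝ} (hε' : 0 < ε') : ∃ ε > 0, ∀ r : Vec d → ℝ,
    (∀ v, |r v| ≤ ε) → (∀ v, |r v| ≤ A * Wp (p + 1) v) → ∀ v, |r v| ≤ ε' * Wp p v := by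
  obtain ⟨S, hS⟩ : ∃ S : ℝ, S = |A| / ε' + 1 := ⟨_, rfl⟩
  have hS0 : 0 < S := by rw [hS]; positivity
  refine ⟨ε' * (S ^ p)⁻¹, by positivity, fun r h1 h2 v => ?_⟩
  have hn : 0 < 1 + nsq v := by
    have := sq_nonneg' v
    linarith
  rcases le_or_gt (1 + nsq v) S with h | h
  · refine (h1 v).trans ?_
    refine mul_le_mul_of_nonneg_left ?_ hε'.le
    unfold Wp
    exact inv_anti₀ (by positivity) (pow_le_pow_left₀ hn.le h p)
  · refine (h2 v).trans ?_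
    have h3 : Wp (p + 1) v = Wp p v * (1 + nsq v)⁻¹ := by
      unfold Wp
      rw [pow_succ, mul_inv]
    have hW := Wp_pos p v
    have h4 : A * (1 + nsq v)⁻¹ ≤ ε' := by
      rw [← div_eq_mul_inv, div_le_iff₀ hn]
      have h5 : |A| / ε' ≤ 1 + nsq v := by linarith
      rw [div_le_iff₀ hε'] at h5
      have := le_abs_self A
      nlinarith
    rw [h3]
    calc A * (Wp p v * (1 + nsq v)⁻¹) = (A * (1 + nsq v)⁻¹) * Wp p v := by ring
      _ ≤ ε' * Wp p v := mul_le_mul_of_nonneg_right h4 hW.le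

/-- **openness**: if `g` comes once close to a Maxwellian, all solutions with data near `g 0` satisfy the hydrodynamic bounds
with constants which do not depend on their life time -/
theorem open_L (hd : 2 ≤ d) (h1 : -2 < γ) (h2 : γ ≤ 0) {a k : ℝ} (ha : 0 < a) (hk : 0 < k) (u : Vec d)
    {η : ℝ} (hη : 0 < η) : ∃ e > 0, ∀ (T₁ : ℝ) (g : ℝ → Vec d → Vec d → ℝ), IsLandauSol γ T₁ g →
      (∀ T₀ < T₁, ∀ N : ℕ, ∃ C, ∀ t ∈ Ioc 0 T₀, ∀ (x v : Vec d) (i j : Fin d),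
        (1 + ‖v‖) ^ N * |pd i (pd j (g t x)) v| ≤ C) →
      (∀ x, 0 < ∫ v, g 0 x v) → ∀ t₁ ∈ Ico 0 T₁,
      (∀ x v, |g t₁ x v - mx a k u v| ≤ e * Wp (d + 3) v) → ∀ B : ℕ → ℝ,
      ∃ ε > 0, ∃ m₀ > 0, ∃ (M₀ : ℝ) (U : ℕ → ℝ), ∀ (T : ℝ) (f : ℝ → Vec d → Vec d → ℝ),
        IsLandauSol γ T f → (∀ (N : ℕ) (x v : Vec d), (1 + ‖v‖) ^ N * f 0 x v ≤ B N) →
        (∀ x v, |f 0 x v - g 0 x v| ≤ ε) →
        ∀ t ∈ Ico 0 T, ∀ x, HydroBounds m₀ M₀ M₀ M₀ (f t x) ∧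
          (∀ (N : ℕ) (v : Vec d), (1 + ‖v‖) ^ N * f t x v ≤ U N) ∧
          (t ≤ t₁ → ∀ v, |f t x v - g t x v| ≤ η) ∧
          (t₁ ≤ t → ∀ v, |f t x v - mx a k u v| ≤ η) := by
  obtain ⟨e₁, he₁, hL⟩ := near_L (Pool.Agent.H15.KM.kmod_all d) hd h1 h2 (p := d + 3) le_rfl ha hk u
  obtain ⟨e₂, he₂, hE⟩ := near_eqL (Pool.Agent.H15.KM.kmod_all d) hd h1 h2 (p := d + 3) le_rfl ha hk u hη
  obtain ⟨e, he, hea, heb⟩ : ∃ e : ℝ, 0 < e ∧ 2 * e ≤ e₁ ∧ 2 * e ≤ e₂ :=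
    ⟨min e₁ e₂ / 2, by positivity, by linarith [min_le_left e₁ e₂], by linarith [min_le_right e₁ e₂]⟩
  refine ⟨e, he, fun T₁ g hg hg2 hg0 t₁ ht₁ hgM B => ?_⟩
  have hg' : IsClassicalSol T₁ (fun t x => landauQ γ (g t x)) g := hg
  have hT₁ : 0 < T₁ := ht₁.1.trans_lt ht₁.2
  obtain ⟨T₀, hT₀⟩ : ∃ T₀ : ℝ, T₀ = (t₁ + T₁) / 2 := ⟨_, rfl⟩
  have hT₀a : t₁ < T₀ := by rw [hT₀]; linarith [ht₁.2]
  have hT₀b : T₀ < T₁ := by rw [hT₀]; linarith [ht₁.2]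
  have hT₀0 : 0 < T₀ := ht₁.1.trans_lt hT₀a
  obtain ⟨p, hp⟩ : ∃ p : ℕ, p = d + 3 := ⟨_, rfl⟩
  -- the bounds of `g` on `[0,T₀]`
  obtain ⟨C1, hC1⟩ := hg'.decay T₀ hT₀b (2 * p)
  obtain ⟨C2, hC2⟩ := hg2 T₀ hT₀b (2 * (p + 1))
  obtain ⟨A, hA⟩ : ∃ A : ℝ, A = ((d : ℝ) + 1) ^ p * |C1| + ((d : ℝ) + 1) ^ (p + 1) * |C2| := ⟨_, rfl⟩
  have hA1 : 0 ≤ ((d : ℝ) + 1) ^ p * |C1| := by positivity
  have hA2 : 0 ≤ ((d : ℝ) + 1) ^ (p + 1) * |C2| := by positivity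
  have hA0 : 0 ≤ A := by rw [hA]; linarith
  have hgle : ∀ t ∈ Icc 0 T₀, ∀ x v, g t x v ≤ A * Wp p v := fun t ht x v => by
    refine (opn_le (hg'.nonneg t ⟨ht.1, ht.2.trans_lt hT₀b⟩ x v) (hC1 t ht x v)).trans ?_
    exact mul_le_mul_of_nonneg_right (by rw [hA]; linarith) (Wp_pos p v).le
  have hgA : ∀ t ∈ Ioc 0 T₀, ∀ x, CW p A (g t x) ∧ HW (p + 1) A (g t x) := by
    intro t ht x
    have hn := IsClassicalSol.nice hg' ⟨ht.1, ht.2.trans_lt hT₀b⟩ x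
    refine ⟨⟨hn.cont, fun v => ?_⟩, fun i j v => ?_⟩
    · rw [abs_of_nonneg (hg'.nonneg t ⟨ht.1.le, ht.2.trans_lt hT₀b⟩ x v)]
      exact hgle t ⟨ht.1.le, ht.2⟩ x v
    · refine (opn_le (abs_nonneg _) (hC2 t ht x v i j)).trans ?_
      exact mul_le_mul_of_nonneg_right (by rw [hA]; linarith) (Wp_pos _ v).le
  -- the mass density of `g`
  obtain ⟨T₂, hT₂⟩ : ∃ T₂ : ℝ, T₂ = (T₀ + T₁) / 2 := ⟨_, rfl⟩
  have hT₂a : T₀ < T₂ := by rw [hT₂]; linarith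
  have hT₂b : T₂ < T₁ := by rw [hT₂]; linarith
  have hgr : IsLandauSol γ T₂ g := Pool.Agent.H48.PI.sol_restrict hg' hT₂b.le
  have hgrap : Pool.Agent.H82.BK.RapidUpTo T₂ g := fun N => by
    obtain ⟨C, hC⟩ := hg'.decay T₂ hT₂b N
    exact ⟨C, fun t ht x v => hC t ⟨ht.1, ht.2.le⟩ x v⟩
  obtain ⟨m, hm, Mg, Eg, Hg, hmg⟩ := Pool.Agent.H93.CM.landau_noVac hd h1 h2 hgr hgrap hg0
  obtain ⟨I, hI⟩ : ∃ I : ℝ, I = ∫ v : Vec d, Wp p v := ⟨_, rfl⟩
  have hI0 : 0 ≤ I := by rw [hI]; exact integral_nonneg fun z => (Wp_pos p z).le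
  have hWi : Integrable (Wp p : Vec d → ℝ) := opn_Wint (by omega)
  obtain ⟨η', hη', hη1, hη2, hη3, hη4⟩ : ∃ η' : ℝ, 0 < η' ∧ η' ≤ η ∧ η' ≤ e ∧ η' ≤ 1 ∧ η' * I ≤ m / 2 := by
    refine ⟨min (min η e) (min 1 (m / 2 / (I + 1))), by positivity,
      (min_le_left _ _).trans (min_le_left _ _), (min_le_left _ _).trans (min_le_right _ _),
      (min_le_right _ _).trans (min_le_left _ _), ?_⟩
    refine (mul_le_mul_of_nonneg_right ((min_le_right _ _).trans (min_le_right _ _)) hI0).trans ?_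
    rw [div_mul_eq_mul_div, div_le_iff₀ (by positivity)]
    nlinarith
  obtain ⟨ε₃, hε₃, hst⟩ := stG (p := p) hd h1 h2 (by omega) hT₀b hg hA0 hgA hη'
  -- the data
  obtain ⟨C3, hC3⟩ := hg'.decay 0 hT₁ (2 * (p + 1))
  obtain ⟨ε, hε, hsw⟩ := sup_to_wp (d := d) p (((d : ℝ) + 1) ^ (p + 1) * |B (2 * (p + 1))| +
    ((d : ℝ) + 1) ^ (p + 1) * |C3|) hε₃
  obtain ⟨U₁, hU₁⟩ := Pool.Agent.H85.LN.prpLS (d := d) hd h1 h2 (q := p) (by omega) (A + 1) T₀ B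
  obtain ⟨U₂, m₂, hm₂, hL2⟩ := hL U₁
  obtain ⟨M₀, hM₀⟩ := Pool.Agent.H48.PI.hydro_of_U d fun N => max (U₁ N) (U₂ N)
  refine ⟨ε, hε, min (m / 2) m₂, lt_min (half_pos hm) hm₂, M₀, fun N => max (U₁ N) (U₂ N),
    fun T f hf hfB hfε => ?_⟩
  have hf' : IsClassicalSol T (fun t x => landauQ γ (f t x)) f := hf
  rcases le_or_gt T 0 with hT | hT
  · exact fun t ht => absurd (ht.1.trans_lt ht.2) (not_lt.2 hT)
  have hz : (0 : ℝ) ∈ Ico 0 T := ⟨le_rfl, hT⟩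
  have hdat : ∀ x v, |f 0 x v - g 0 x v| ≤ ε₃ * Wp p v := fun x v =>
    hsw (fun v => f 0 x v - g 0 x v) (fun v => hfε x v) (fun v => by
      have j1 := opn_le (hf'.nonneg 0 hz x v) (hfB (2 * (p + 1)) x v)
      have j2 := opn_le (hg'.nonneg 0 ⟨le_rfl, hT₁⟩ x v) (hC3 0 ⟨le_rfl, le_rfl⟩ x v)
      have j3 := hf'.nonneg 0 hz x v
      have j4 := hg'.nonneg 0 ⟨le_rfl, hT₁⟩ x v
      have j5 : |f 0 x v - g 0 x v| ≤ f 0 x v + g 0 x v := by
        rw [abs_le]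
        constructor <;> linarith
      refine j5.trans ?_
      rw [add_mul]
      linarith) v
  obtain ⟨T', hT'⟩ : ∃ T' : ℝ, T' = min T T₀ := ⟨_, rfl⟩
  have hT'a : T' ≤ T := by rw [hT']; exact min_le_left _ _
  have hT'b : T' ≤ T₀ := by rw [hT']; exact min_le_right _ _
  have hfr : IsLandauSol γ T' f := Pool.Agent.H48.PI.sol_restrict hf' hT'a
  have hcl := hst T' f hT'b hfr hdat
  have hfA : ∀ t ∈ Ico 0 T', ∀ x v, f t x v ≤ (A + 1) * Wp p v := fun t ht x v => by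
    have j1 := (abs_le.1 (hcl t ht x v)).2
    have j2 := hgle t ⟨ht.1, ht.2.le.trans hT'b⟩ x v
    have j3 : η' * Wp p v ≤ 1 * Wp p v := mul_le_mul_of_nonneg_right hη3 (Wp_pos p v).le
    linarith
  have hdec := hU₁ 1 one_pos T' (by rw [one_mul]; exact hT'b) f (lsol_one.2 hfr) hfB hfA
  have hmass : ∀ t ∈ Ico 0 T', ∀ x, m / 2 ≤ ∫ v, f t x v := by
    intro t ht x
    have htg : t ∈ Ico 0 T₁ := ⟨ht.1, (ht.2.trans_le hT'b).trans hT₀b⟩
    have ig := opn_int hg' htg x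
    have if' := opn_int hf' ⟨ht.1, ht.2.trans_le hT'a⟩ x
    have j1 : (∫ v, g t x v) - η' * ∫ v : Vec d, Wp p v ≤ ∫ v, f t x v := by
      rw [← integral_const_mul, ← integral_sub ig (hWi.const_mul η')]
      refine integral_mono (ig.sub (hWi.const_mul η')) if' fun v => ?_
      have := (abs_le.1 (hcl t ht x v)).1
      show g t x v - η' * Wp p v ≤ f t x v
      linarith
    have j2 : m ≤ ∫ v, g t x v := (hmg t ⟨ht.1, (ht.2.trans_le hT'b).trans hT₂a⟩ x).1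
    rw [← hI] at j1
    linarith
  -- all times
  have key : ∀ t ∈ Ico 0 T, ∀ x, (∀ (N : ℕ) (v : Vec d), (1 + ‖v‖) ^ N * f t x v ≤
      max (U₁ N) (U₂ N)) ∧ min (m / 2) m₂ ≤ ∫ v, f t x v ∧ (t ≤ t₁ → ∀ v, |f t x v - g t x v| ≤ η) ∧
      (t₁ ≤ t → ∀ v, |f t x v - mx a k u v| ≤ η) := by
    intro t ht x
    have hlate : t₁ ≤ t → (∀ (N : ℕ) (v : Vec d), (1 + ‖v‖) ^ N * f t x v ≤ U₂ N) ∧
        m₂ ≤ ∫ v, f t x v ∧ ∀ v, |f t x v - mx a k u v| ≤ η := by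
      intro htt
      have ht1T : t₁ < T := htt.trans_lt ht.2
      have ht1T' : t₁ ∈ Ico 0 T' := ⟨ht₁.1, by rw [hT']; exact lt_min ht1T hT₀a⟩
      have hsh : IsLandauSol γ (T - t₁) (fun τ => f (t₁ + τ)) :=
        lsol_one.1 (lsol_shift (lsol_one.2 hf) ht₁.1)
      have hnear : ∀ y w, |f (t₁ + 0) y w - mx a k u w| ≤ 2 * e * Wp (d + 3) w := fun y w => by
        rw [add_zero]
        have j1 := hcl t₁ ht1T' y w
        have j2 := hgM y w
        have j3 := abs_sub_le (f t₁ y w) (g t₁ y w) (mx a k u w)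
        have hW := Wp_pos p w
        rw [hp] at j1 hW
        have j4 : η' * Wp (d + 3) w ≤ e * Wp (d + 3) w := mul_le_mul_of_nonneg_right hη2 hW.le
        linarith
      have htt' : t - t₁ ∈ Ico 0 (T - t₁) := ⟨by linarith, by linarith [ht.2]⟩
      have e1 : t₁ + (t - t₁) = t := by ring
      have k1 := hL2 (T - t₁) (fun τ => f (t₁ + τ)) hsh (fun N y w => by
        show (1 + ‖w‖) ^ N * f (t₁ + 0) y w ≤ U₁ N
        rw [add_zero]
        exact hdec t₁ ht1T' N y w) (fun y w => (hnear y w).trans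
          (mul_le_mul_of_nonneg_right hea (Wp_pos _ w).le)) (t - t₁) htt' x
      have k2 := hE (T - t₁) (fun τ => f (t₁ + τ)) hsh (fun y w => (hnear y w).trans
          (mul_le_mul_of_nonneg_right heb (Wp_pos _ w).le)) (t - t₁) htt' x
      simp only [e1] at k1 k2
      refine ⟨k1.1, k1.2, fun v => (k2 v).trans ?_⟩
      exact mul_le_of_le_one_right hη.le (Wp_le_one _ v)
    rcases lt_or_ge t T' with hlt | hge
    · have htI : t ∈ Ico 0 T' := ⟨ht.1, hlt⟩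
      refine ⟨fun N v => (hdec t htI N x v).trans (le_max_left _ _),
        (min_le_left _ _).trans (hmass t htI x), fun _ v => ?_, fun h => (hlate h).2.2⟩
      refine (hcl t htI x v).trans ?_
      calc η' * Wp p v ≤ η * 1 := mul_le_mul hη1 (Wp_le_one p v) (Wp_pos p v).le hη.le
        _ = η := mul_one _
    · have hTT : T₀ ≤ t := by
        rw [hT'] at hge
        rcases le_total T T₀ with h | h
        · rw [min_eq_left h] at hge
          exact absurd ht.2 (not_lt.2 hge)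
        · rwa [min_eq_right h] at hge
      obtain ⟨k1, k2, k3⟩ := hlate (hT₀a.le.trans hTT)
      exact ⟨fun N v => (k1 N v).trans (le_max_right _ _), (min_le_right _ _).trans k2,
        fun h => absurd (h.trans_lt hT₀a) (not_lt.2 hTT), fun _ => k3⟩
  intro t ht x
  obtain ⟨g1, g2, g3⟩ := hM₀ T _ f hf' (fun N τ hτ y w => (key τ hτ y).1 N w) t ht x
  exact ⟨⟨(key t ht x).2.1, g1, g2, g3⟩, (key t ht x).1, (key t ht x).2.2⟩

end Pool.Agent.H15.OL
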