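import Pool.Agent.H15.OL.OpB
import Pool.Agent.H48.PS.Tch2
import Pool.Agent.H48.PI.Shift

/-!
# Block OL: stability of a given solution of the Landau equation on bounded time intervals

As StL (H48/LN). Barrier `β(t) = κ e^((K+1) t)`, `K` of `op_two`.
-/

set_option autoImplicit false

open MeasureTheory Set Filter Topology Pool.Agent.H25.Kin Pool.Agent.H48.PR Pool.Agent.H48.NE Pool.Agent.H48.LN

namespace Pool.Agent.H15.OL

variable {d : ℕ} {γ : ℝ}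

private lemma stG_der {g : ℝ → ℝ} {g' : ℝ} (hg : HasDerivAt g g' 0) (h0 : g 0 = 0)
    (h : ∀ᶠ τ in 𝓝[>] (0 : ℝ), 0 ≤ g (-τ)) : g' ≤ 0 := by
  have h1 : HasDerivAt (fun τ : ℝ => -g (-τ)) g' 0 := by
    have hn : HasDerivAt (fun τ : ℝ => -τ) (-1) 0 := hasDerivAt_neg' (0 : ℝ)
    have hd' : HasDerivAt g g' (-(0 : ℝ)) := by rwa [neg_zero]
    have h3 := (hd'.comp (0 : ℝ) hn).neg
    rw [mul_neg, mul_one, neg_neg] at h3
    exact h3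
  have h2 := h1.tendsto_slope_zero_right
  refine le_of_tendsto h2 ?_
  filter_upwards [h, self_mem_nhdsWithin] with τ h3 h4
  have h4' : 0 < τ := h4
  rw [zero_add, smul_eq_mul, neg_zero, h0, neg_zero, sub_zero]
  exact mul_nonpos_of_nonneg_of_nonpos (inv_nonneg.2 h4'.le) (by linarith)

private lemma stG_cmp {φ : ℝ → ℝ} {φ' c : ℝ} (hφ : HasDerivAt φ φ' 0)
    (h0 : φ 0 = c) (h : ∀ᶠ τ in 𝓝[>] (0 : ℝ), φ (-τ) ≤ c) : 0 ≤ φ' := by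
  have h1 : -φ' ≤ 0 := by
    refine stG_der (g := fun τ => c - φ τ) (hφ.const_sub c) ?_ ?_
    · show c - φ 0 = 0
      rw [h0, sub_self]
    · filter_upwards [h] with τ hτ
      show 0 ≤ c - φ (-τ)
      linarith
  linarith

/-- a solution with bounded second derivatives in the velocity is stable on bounded time intervals -/
theorem stG (hd : 2 ≤ d) (h1 : -2 < γ) (h2 : γ ≤ 0) {p : ℕ} (hp : d + 2 ≤ p) {T₀ T₁ : ℝ} (hT : T₀ < T₁)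
    {g : ℝ → Vec d → Vec d → ℝ} (hg : IsLandauSol γ T₁ g) {A : ℝ} (hA : 0 ≤ A)
    (hgA : ∀ t ∈ Ioc 0 T₀, ∀ x, CW p A (g t x) ∧ HW (p + 1) A (g t x)) {η : ℝ} (hη : 0 < η) : ∃ ε > 0,
      ∀ (T : ℝ) (f : ℝ → Vec d → Vec d → ℝ), T ≤ T₀ → IsLandauSol γ T f →
      (∀ x v, |f 0 x v - g 0 x v| ≤ ε * Wp p v) →
      ∀ t ∈ Ico 0 T, ∀ x v, |f t x v - g t x v| ≤ η * Wp p v := by
  obtain ⟨K, hK0, hK⟩ := op_two (d := d) (γ := γ) hd h1 h2 hp hA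
  obtain ⟨μ, hμ0, hμη, hμ1⟩ : ∃ μ : ℝ, 0 < μ ∧ μ ≤ η ∧ μ ≤ 1 :=
    ⟨min η 1, lt_min hη one_pos, min_le_left _ _, min_le_right _ _⟩
  obtain ⟨κ, hκ⟩ : ∃ κ : ℝ, κ = μ / 2 * Real.exp (-((K + 1) * T₀)) := ⟨_, rfl⟩
  have hκ0 : 0 < κ := by rw [hκ]; positivity
  obtain ⟨β, hβ⟩ : ∃ β : ℝ → ℝ, β = fun t => κ * Real.exp ((K + 1) * t) := ⟨_, rfl⟩
  have hβ0 : ∀ t, 0 < β t := fun t => by rw [hβ]; positivity
  have hβc : Continuous β := by rw [hβ]; fun_prop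
  have hβz : β 0 = κ := by rw [hβ]; simp
  have hβμ : ∀ t ≤ T₀, β t ≤ μ / 2 := fun t ht => by
    rw [hβ]
    show κ * Real.exp ((K + 1) * t) ≤ μ / 2
    rw [hκ, mul_assoc, ← Real.exp_add]
    have h3 : Real.exp (-((K + 1) * T₀) + (K + 1) * t) ≤ 1 := by
      rw [Real.exp_le_one_iff]
      nlinarith
    have h4 : 0 ≤ μ / 2 := by positivity
    nlinarith
  have hβd : ∀ t₀ : ℝ, HasDerivAt (fun τ : ℝ => β (t₀ + τ)) ((K + 1) * β t₀) 0 := fun t₀ => by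
    have h3 : HasDerivAt (fun τ : ℝ => (K + 1) * (t₀ + τ)) (K + 1) 0 := by
      have h4 := ((hasDerivAt_id (0 : ℝ)).const_add t₀).const_mul (K + 1)
      rw [mul_one] at h4
      exact h4
    have h5 := (h3.exp).const_mul κ
    rw [add_zero] at h5
    have h6 : (K + 1) * β t₀ = κ * (Real.exp ((K + 1) * t₀) * (K + 1)) := by
      rw [hβ]; ring
    rw [h6, hβ]
    exact h5
  refine ⟨κ / 2, by positivity, fun T f hTT hf h0 t ht x v => ?_⟩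
  have hf' : IsClassicalSol T (fun t x => landauQ γ (f t x)) f := hf
  have hg1 : IsClassicalSol T₁ (fun t x => landauQ γ (g t x)) g := hg
  have hg' : IsClassicalSol T (fun t x => landauQ γ (g t x)) g :=
    Pool.Agent.H48.PI.sol_restrict hg1 (hTT.trans hT.le)
  by_contra hcon
  push Not at hcon
  have hWv := Wp_pos p v
  obtain ⟨t₀, ht₀, x₀, v₀, heq, hlt, hle⟩ := Pool.Agent.H48.PS.tch2 hf' hg' p ht.1 ht.2
    (B := β) hβc.continuousOn (fun τ _ => hβ0 τ)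
    (fun y w => (h0 y w).trans_lt (by
      rw [hβz]
      have := Wp_pos p w
      nlinarith))
    ⟨t, ⟨ht.1, le_rfl⟩, x, v, by
      have h3 := hβμ t (ht.2.le.trans hTT)
      nlinarith⟩
  have ht₀T : t₀ ∈ Ioo 0 T := ⟨ht₀.1, ht₀.2.trans_lt ht.2⟩
  have ht₀C : t₀ ∈ Ico 0 T := ⟨ht₀.1.le, ht₀T.2⟩
  have hb2 := hβμ t₀ (ht₀T.2.le.trans hTT)
  have hb0 := hβ0 t₀
  have hW := Wp_pos p v₀
  have hbW : 0 < β t₀ * Wp p v₀ := mul_pos hb0 hW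
  obtain ⟨hgc, hgh⟩ := hgA t₀ ⟨ht₀.1, ht₀T.2.le.trans hTT⟩ x₀
  have hop := hK (g t₀ x₀) (IsClassicalSol.nice hg' ht₀T x₀) hgc hgh (β t₀) hb0.le (by linarith)
    (f t₀ x₀) (IsClassicalSol.nice hf' ht₀T x₀)
    (fun w => hf'.nonneg t₀ ht₀C x₀ w) (fun w => hle x₀ w) v₀
  have hdf := Pool.Agent.H82.BK.char_deriv hf' ht₀T x₀ v₀
  have hdg := Pool.Agent.H82.BK.char_deriv hg' ht₀T x₀ v₀
  have hdb := (hβd t₀).mul_const (Wp p v₀)
  have hnear : ∀ᶠ τ in 𝓝[>] (0 : ℝ), |f (t₀ + -τ) (x₀ + (-τ) • v₀) v₀ -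
      g (t₀ + -τ) (x₀ + (-τ) • v₀) v₀| ≤ β (t₀ + -τ) * Wp p v₀ := by
    filter_upwards [Ioo_mem_nhdsGT ht₀.1] with τ hτ
    exact (hlt (t₀ + -τ) ⟨by linarith [hτ.2], by linarith [hτ.1]⟩ _ v₀).le
  rcases abs_cases (f t₀ x₀ v₀ - g t₀ x₀ v₀) with ⟨h3, -⟩ | ⟨h3, -⟩
  · rw [h3] at heq
    have h4 := stG_cmp (c := 0) ((hdf.sub hdg).sub hdb) (by
      show f (t₀ + 0) (x₀ + (0 : ℝ) • v₀) v₀ - g (t₀ + 0) (x₀ + (0 : ℝ) • v₀) v₀ -
        β (t₀ + 0) * Wp p v₀ = 0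
      rw [add_zero, zero_smul, add_zero, heq, sub_self]) (by
      filter_upwards [hnear] with τ hτ
      show f (t₀ + -τ) (x₀ + (-τ) • v₀) v₀ - g (t₀ + -τ) (x₀ + (-τ) • v₀) v₀ -
        β (t₀ + -τ) * Wp p v₀ ≤ 0
      have h5 := (le_abs_self _).trans hτ
      linarith)
    have h5 := hop.1 heq
    have h6 : (K + 1) * β t₀ * Wp p v₀ = K * β t₀ * Wp p v₀ + β t₀ * Wp p v₀ := by ring
    linarith
  · rw [h3, neg_sub] at heq
    have h4 := stG_cmp (c := 0) ((hdg.sub hdf).sub hdb) (by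
      show g (t₀ + 0) (x₀ + (0 : ℝ) • v₀) v₀ - f (t₀ + 0) (x₀ + (0 : ℝ) • v₀) v₀ -
        β (t₀ + 0) * Wp p v₀ = 0
      rw [add_zero, zero_smul, add_zero, heq, sub_self]) (by
      filter_upwards [hnear] with τ hτ
      show g (t₀ + -τ) (x₀ + (-τ) • v₀) v₀ - f (t₀ + -τ) (x₀ + (-τ) • v₀) v₀ -
        β (t₀ + -τ) * Wp p v₀ ≤ 0
      rw [abs_sub_comm] at hτ
      have h5 := (le_abs_self _).trans hτ
      linarith)
    have h5 := hop.2 (by linarith)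
    have h6 : (K + 1) * β t₀ * Wp p v₀ = K * β t₀ * Wp p v₀ + β t₀ * Wp p v₀ := by ring
    linarith

end Pool.Agent.H15.OL
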